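import Mathlib
import Pool.Agent.H95.Gabidulin

/-!
# Support-constrained Gabidulin codes over every extension of degree at least the length

`K` is a finite field with `q` elements, `L` a finite extension of degree `m`, and
`1 ≤ k ≤ n ≤ m`. For every family `Z 0, ..., Z (k-1)` of subsets of the `n` coordinates
satisfying the MDS condition there is an `[n, k]` Gabidulin code over `L` with a generator
matrix vanishing at all `(i, j)` with `j ∈ Z i`.

Idea of the proof. Parametrise the code as the kernel of the `(n-k) × n` Moore matrix of a
tuple `h`. After enlarging the `Z i` to size `k - 1`, the constrained codewords are vectors of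
`(n-k) × (n-k)` Moore minors, so a maximal minor of the constrained matrix has degree at most
`k * q ^ (n-k-1)` in each `h j`. Together with the Moore determinant, of degree `q ^ (n-1)`, this
stays below `q ^ n`, hence a nonvanishing point exists in `L ^ n` as soon as the product is a
nonzero polynomial. The latter follows from a generic independence theorem for linearised
polynomials (proved by specialisation of evaluation points to zero) and from duality.
-/

namespace Pool.Agent.Results.MP_aa6dd4_lc.GabidulinAllDegrees

theorem result (K L : Type*) [Field K] [Fintype K] [Field L] [Algebra K L]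
    [FiniteDimensional K L] (n k : ℕ) (hk : 1 ≤ k) (hkn : k ≤ n)
    (hm : n ≤ Module.finrank K L) (Z : Fin k → Finset (Fin n))
    (hZ : ∀ Ω : Finset (Fin k), Ω.Nonempty →
      (Finset.univ.filter (fun j : Fin n => ∀ i ∈ Ω, j ∈ Z i)).card + Ω.card ≤ k) :
    ∃ g : Fin n → L, LinearIndependent K g ∧
      ∃ G : Matrix (Fin k) (Fin n) L,
        LinearIndependent L G.row ∧
        (∀ c : Fin n → L, c ∈ Submodule.span L (Set.range G.row) ↔
          ∃ f : Fin k → L, ∀ j, c j = ∑ t : Fin k, f t * g j ^ (Fintype.card K ^ (t : ℕ))) ∧
        ∀ i, ∀ j ∈ Z i, G i j = 0 := by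
  obtain ⟨g, hg, G, hG1, hG2, hG3⟩ :=
    Pool.Agent.H95.gabidulin_support_constrained (K := K) (L := L) hk hkn hm Z hZ
  refine ⟨g, hg, G, hG1, fun c => ?_, hG3⟩
  rw [hG2, Submodule.mem_span_range_iff_exists_fun]
  constructor
  · rintro ⟨f, hf⟩
    refine ⟨f, fun j => ?_⟩
    rw [← hf]
    simp [Finset.sum_apply]
  · rintro ⟨f, hf⟩
    refine ⟨f, ?_⟩
    funext j
    rw [hf j]
    simp [Finset.sum_apply]

end Pool.Agent.Results.MP_aa6dd4_lc.GabidulinAllDegrees
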