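import Pool.Agent.H42.GR.Loc

/-!
MP_aa6dd4_lc, Q1: support-constrained Reed-Solomon codes over small fields.

Idea of the proof. The rows `i ≥ m` are the products of the prescribed linear factors and a power
of `T`, of degree `i`. The first `m` rows of the matrix are evaluations of polynomials
`f i = ∏ (T - α z) * ∏ (free linear factors)`, `z ∈ Y i`, of degree less than `m`; they must be
independent, that is, a determinant `P` in the points `α z` and in the free coefficients must
not vanish. It is not the zero polynomial by the generic theorem. The question is invariant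
under the projective linear group, so one point may be put at infinity. The other points are
chosen one after the other. The degree of `P` in the point `v` is at most the number of sets
`Y i`, `i < m`, that contain `v`; if `v` or `w` lies in every `Y i`, then `P` vanishes for
`α v = α w`, and this zero is not a value which is still free. So the number of bad values of `v` is
at most the number of the `Y i` that contain `v` minus the number of these `w` (which includes the
point at infinity). For families of sets of size `m - 1` the sum of these numbers over all points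
`v` is at most `r (r - 1) (m - 1)`, `r = n - m`. The points with the smallest numbers are chosen last.
-/

set_option autoImplicit false

namespace Pool.Agent.Results.MP_aa6dd4_lc.ReedSolomonSmallFields

open Polynomial

theorem result (F : Type*) [Field F] [Fintype F] (n m k : ℕ) (hm : 1 ≤ m) (hmk : m ≤ k)
    (hkn : k ≤ n) (hq : n ≤ Fintype.card F) (Z : Fin k → Finset (Fin n))
    (hZ : ∀ Ω : Finset (Fin k), Ω.Nonempty → (∀ i ∈ Ω, (i : ℕ) < m) →
      (Finset.univ.filter (fun j : Fin n => ∀ i ∈ Ω, j ∈ Z i)).card + Ω.card ≤ m)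
    (hT : ∀ i : Fin k, m ≤ (i : ℕ) → (Z i).card ≤ (i : ℕ))
    (s : ℕ) (hs : s = ∑ i ∈ Finset.univ.filter (fun i : Fin k => (i : ℕ) < m), (Z i).card)
    (h : m ≤ 4 ∨ n ≤ m + 2 ∨ s < 2 * n ∨
      n - 1 + min (min s ((m - 1) * ((n - m) * (n - m - 1))) / n) ((n - m - 1) ^ 2) ≤
        Fintype.card F ∨
      ∃ (Y : Fin k → Finset (Fin n)) (v : Fin n → Fin n),
        (∀ i : Fin k, (i : ℕ) < m → Z i ⊆ Y i) ∧
        (∀ Ω : Finset (Fin k), Ω.Nonempty → (∀ i ∈ Ω, (i : ℕ) < m) →
          (Finset.univ.filter (fun j : Fin n => ∀ i ∈ Ω, j ∈ Y i)).card + Ω.card ≤ m) ∧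
        Function.Bijective v ∧
        ∀ t : Fin n, (t : ℕ) + 1 < n →
          (Finset.univ.filter (fun i : Fin k => (i : ℕ) < m ∧ v t ∈ Y i)).card -
            (Finset.univ.filter (fun w : Fin n => w ≠ v t ∧
              ∀ i : Fin k, (i : ℕ) < m → v t ∈ Y i ∨ w ∈ Y i)).card ≤
            Fintype.card F - n + ((t : ℕ) + 1)) :
    ∃ α : Fin n → F, Function.Injective α ∧ ∃ G : Matrix (Fin k) (Fin n) F,
      LinearIndependent F G.row ∧
      (∀ c : Fin n → F, c ∈ Submodule.span F (Set.range G.row) ↔
        ∃ f : F[X], f.degree < (k : ℕ) ∧ ∀ j, c j = f.eval (α j)) ∧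
      ∀ i, ∀ j ∈ Z i, G i j = 0 := by
  have hC := Pool.Agent.H42.GR.cond_castLE hmk Z hZ
  have hs' := (Pool.Agent.H42.GR.sum_castLE hmk Z).trans hs.symm
  refine Pool.Agent.H42.GR.concl_tri hmk hkn ?_ hT
  have key : n - 1 + min s ((m - 1) * ((n - m) * (n - m - 1))) / n ≤ Fintype.card F →
      Pool.Agent.H42.GR.RSConcl F n m fun i => Z (Fin.castLE hmk i) := by
    intro h1
    exact Pool.Agent.H42.GR.concl_final hm (hmk.trans hkn) hq (by rw [hs']; exact h1) hC
  have hb : s ≤ m * (m - 1) := by
    rw [← hs']
    exact Pool.Agent.H42.GR.sum_le hC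
  rcases h with h | h | h | h | ⟨Y, v, hZY, hY, hv, h⟩
  · exact key (Pool.Agent.H42.GR.bound_final (hmk.trans hkn) hq hb (Or.inl h))
  · exact key (Pool.Agent.H42.GR.bound_final (hmk.trans hkn) hq hb (Or.inr (Or.inl h)))
  · exact key (Pool.Agent.H42.GR.bound_final (hmk.trans hkn) hq hb
      (Or.inr (Or.inr (Or.inl h))))
  · rcases min_choice (min s ((m - 1) * ((n - m) * (n - m - 1))) / n) ((n - m - 1) ^ 2) with
      h1 | h1
    · rw [h1] at h
      exact key h
    · rw [h1] at h
      exact Pool.Agent.H42.GR.concl_cod hm (hmk.trans hkn) hq h hC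
  · refine Pool.Agent.H42.GR.concl_loc hm (hmk.trans hkn) hq
      (Y := fun i => Y (Fin.castLE hmk i)) (fun i => hZY _ i.2)
      (Pool.Agent.H42.GR.cond_castLE hmk Y hY) (Equiv.ofBijective v hv) ?_
    intro t ht
    have h1 := h t ht
    rw [← Pool.Agent.H42.GR.cov_castLE hmk, ← Pool.Agent.H42.GR.deg_castLE hmk] at h1
    exact h1

end Pool.Agent.Results.MP_aa6dd4_lc.ReedSolomonSmallFields
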